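import Pool.Agent.Run7.h568.DG.CIface

/-! The piece C_R for MP_00a7c6_gt: the twisted transports. -/

set_option autoImplicit false

open Real Matrix

noncomputable section

namespace Run7.h595.DG

open Run7.h568.DG

theorem ent (A B : SL) (i j : Fin 2) :
    (A * B).1 i j = A.1 i 0 * B.1 0 j + A.1 i 1 * B.1 1 j := by
  rw [Matrix.SpecialLinearGroup.coe_mul, Matrix.mul_apply, Fin.sum_univ_two]

theorem W_c : W.1 = !![1, -1; 1, 0] := rfl

theorem E_c (s : ℝ) : (E s).1 = !![0, exp (s / 2); -exp (-s / 2), 0] := rfl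

theorem Del_c (s : ℝ) : (Del s).1 = !![exp (-s / 2), 0; 0, exp (s / 2)] := rfl

theorem Uf_c : (U false).1 = !![1, 0; 1, 1] := rfl

theorem Ut_c : (U true).1 = !![1, 1; 0, 1] := rfl

theorem exx (s : ℝ) : exp (s / 2) * exp (-s / 2) = 1 := by
  rw [← Real.exp_add]
  ring_nf
  simp

theorem W3 : W * W * W = (-1 : SL) := by
  apply Subtype.ext
  ext i j
  rw [ent, ent, ent, Matrix.SpecialLinearGroup.coe_neg]
  fin_cases i <;> fin_cases j <;> simp [W_c]

theorem WI : W⁻¹ = -(W * W) := by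
  rw [inv_eq_iff_mul_eq_one]
  rw [mul_neg, ← mul_assoc, W3, neg_neg]

theorem EE (s : ℝ) : E s * E s = (-1 : SL) := by
  apply Subtype.ext
  ext i j
  rw [ent, Matrix.SpecialLinearGroup.coe_neg]
  have h := exx s
  fin_cases i <;> fin_cases j <;> simp [E_c] <;> linarith

theorem EI (s : ℝ) : (E s)⁻¹ = -(E s) := by
  rw [inv_eq_iff_mul_eq_one]
  rw [mul_neg, EE, neg_neg]

theorem stepF (s : ℝ) : step false s = W * W * E s := by
  apply Subtype.ext
  ext i j
  rw [step, ent, ent, ent, ent]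
  fin_cases i <;> fin_cases j <;> simp [W_c, E_c, Del_c, Uf_c]

theorem stepT (s : ℝ) : step true s = W * E s := by
  apply Subtype.ext
  ext i j
  rw [step, ent, ent]
  fin_cases i <;> fin_cases j <;> simp [W_c, E_c, Del_c, Ut_c]

theorem t_CR (hH : C_H) : C_R := by
  intro D _ _ T P t p hp
  obtain ⟨h1, h2, h3, h4⟩ := hH T P t p hp
  have R3 : ∀ d, t.Rs p d * t.Rs p (T.sg d) * t.Rs p (T.sg (T.sg d)) = -1 := by
    intro d
    have e : ∀ d, t.Rs p d = t.Pd p d (t.c d) * W * (t.Pd p (T.sg d) (t.c (T.sg d)))⁻¹ := by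
      intro d
      rw [PTD.Rs, h1 d]
      group
    rw [e, e, e, T.sg3]
    have : t.Pd p d (t.c d) * W * (t.Pd p (T.sg d) (t.c (T.sg d)))⁻¹ *
        (t.Pd p (T.sg d) (t.c (T.sg d)) * W *
          (t.Pd p (T.sg (T.sg d)) (t.c (T.sg (T.sg d))))⁻¹) *
        (t.Pd p (T.sg (T.sg d)) (t.c (T.sg (T.sg d))) * W * (t.Pd p d (t.c d))⁻¹) =
        t.Pd p d (t.c d) * (W * W * W) * (t.Pd p d (t.c d))⁻¹ := by group
    rw [this, W3]
    simp
  have R2 : ∀ d, t.Rs p d * t.Rs p (T.sg d) = W * W * (t.H p (T.sg (T.sg d)))⁻¹ := by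
    intro d
    have h := R3 d
    have h' : t.Rs p d * t.Rs p (T.sg d) = -(t.Rs p (T.sg (T.sg d)))⁻¹ := by
      rw [eq_mul_inv_of_mul_eq h, neg_one_mul]
    rw [h', PTD.Rs, _root_.mul_inv_rev, WI]
    simp
  have uu : P.u ≠ T.io P.u := fun h => T.io_ne _ h.symm
  have vv : P.v ≠ T.io P.v := fun h => T.io_ne _ h.symm
  have uv : P.u ≠ P.v := P.huv 0
  have vu : P.v ≠ T.io P.u := P.hne
  have uv' : P.u ≠ T.io P.v := fun h => P.hne (by rw [h, T.io_io])
  have iuv : T.io P.u ≠ T.io P.v := fun h => uv (T.io.injective h)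
  have rU : t.Ri p P.u = t.H p P.u * E (p.1 P.u) := by
    rw [PTD.Ri, if_neg uu, if_neg uv']
  have rV : t.Ri p P.v = t.H p P.v * E (p.1 P.v) := by
    rw [PTD.Ri, if_neg vu, if_neg vv]
  have rIU : t.Ri p (T.io P.u) = -(t.H p P.u * E (p.1 P.u))⁻¹ := by
    rw [PTD.Ri, if_pos rfl]
  have rIV : t.Ri p (T.io P.v) = -(t.H p P.v * E (p.1 P.v))⁻¹ := by
    rw [PTD.Ri, if_neg iuv.symm, if_pos rfl]
  refine ⟨R3, ?_, ?_, ?_, ?_⟩
  · intro d
    by_cases a1 : d = T.io P.u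
    · rw [a1, T.io_io, rIU, rU]
      simp
    by_cases a2 : d = T.io P.v
    · rw [a2, T.io_io, rIV, rV]
      simp
    by_cases a3 : d = P.u
    · rw [a3, rIU, rU]
      simp
    by_cases a4 : d = P.v
    · rw [a4, rIV, rV]
      simp
    have b1 : T.io d ≠ T.io P.u := fun h => a3 (T.io.injective h)
    have b2 : T.io d ≠ T.io P.v := fun h => a4 (T.io.injective h)
    rw [PTD.Ri, if_neg a1, if_neg a2, PTD.Ri, if_neg b1, if_neg b2, h2 d, hp d]
    · have : t.H p d * E (p.1 d) * ((E (p.1 d))⁻¹ * (t.H p d)⁻¹ * E (p.1 d) * E (p.1 d)) =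
        E (p.1 d) * E (p.1 d) := by group
      rw [this, EE]
    · rintro (h | h | h | h)
      exacts [a3 h, a1 h, a4 h, a2 h]
  · intro d c1 c2
    rw [R2 d, PTD.Ri, if_neg c1, if_neg c2, stepF]
    group
  · intro d c1
    rw [R2 d, c1, rIU, stepF, hp]
    have key : (t.H p (T.io P.u))⁻¹ * (t.H p P.u * E (p.1 P.u))⁻¹ =
        (E (p.1 P.u))⁻¹ * (P.J p * t.B p * (P.J p)⁻¹) := by
      rw [h3]
      group
    rw [mul_neg, mul_assoc (W * W), key, EI]
    simp only [neg_mul, mul_neg, neg_neg, mul_assoc]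
  · intro d c1
    rw [R2 d, c1, rIV, stepF, hp]
    have key : (t.H p (T.io P.v))⁻¹ * (t.H p P.v * E (p.1 P.v))⁻¹ =
        (E (p.1 P.v))⁻¹ * (t.B p)⁻¹ := by
      rw [h4]
      group
    rw [mul_neg, mul_assoc (W * W), key, EI]
    simp only [neg_mul, mul_neg, neg_neg, mul_assoc]

end Run7.h595.DG
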