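import Pool.Agent.Run7.h595.DG.CR

/-! The piece C_twT for MP_00a7c6_gt: the twisted surface is in Teichmueller space. -/

set_option autoImplicit false

open Real Matrix

noncomputable section

namespace Run7.h595.DG

open Run7.h568.DG

/-! ### Actions -/

theorem inv00 (g : SL) : (g⁻¹).1 0 0 = g.1 1 1 := by
  rw [Matrix.SpecialLinearGroup.coe_inv, Matrix.adjugate_fin_two]
  rfl

theorem inv01 (g : SL) : (g⁻¹).1 0 1 = -(g.1 0 1) := by
  rw [Matrix.SpecialLinearGroup.coe_inv, Matrix.adjugate_fin_two]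
  rfl

theorem inv10 (g : SL) : (g⁻¹).1 1 0 = -(g.1 1 0) := by
  rw [Matrix.SpecialLinearGroup.coe_inv, Matrix.adjugate_fin_two]
  rfl

theorem inv11 (g : SL) : (g⁻¹).1 1 1 = g.1 0 0 := by
  rw [Matrix.SpecialLinearGroup.coe_inv, Matrix.adjugate_fin_two]
  rfl

theorem det1 (g : SL) : g.1 0 0 * g.1 1 1 - g.1 0 1 * g.1 1 0 = 1 := by
  have h := g.2
  rw [Matrix.det_fin_two] at h
  exact h

theorem act_mul {A B : SL} {s s' s'' r r' : ℝ} (hA : Act A s' s'' r') (hB : Act B s s' r) :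
    Act (A * B) s s'' (r' * r) := by
  obtain ⟨a1, a2⟩ := hA
  obtain ⟨b1, b2⟩ := hB
  constructor
  · rw [ent, ent]
    linear_combination A.1 0 0 * b1 + A.1 0 1 * b2 + r * a1
  · rw [ent, ent]
    linear_combination A.1 1 0 * b1 + A.1 1 1 * b2 + r * a2

theorem act_inv {g : SL} {s s' r : ℝ} (hr : r ≠ 0) (h : Act g s s' r) :
    Act g⁻¹ s' s r⁻¹ := by
  obtain ⟨a1, a2⟩ := h
  have hd := det1 g
  constructor
  · rw [inv00, inv01]
    have : r * (-(g.1 1 1) * s' + -(g.1 0 1)) = -s := by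
      linear_combination -(g.1 1 1) * a1 + g.1 0 1 * a2 - s * hd
    field_simp
    linarith
  · rw [inv10, inv11]
    have : r * (-(-(g.1 1 0)) * s' + g.1 0 0) = 1 := by
      linear_combination g.1 1 0 * a1 - g.1 0 0 * a2 + hd
    field_simp
    linarith

/-! ### Turns -/

variable {D : Type} [Fintype D] [DecidableEq D] (T : Tri D)

theorem turns_zero (x : D → ℝ) (d : D) : Portal.turns (T := T) x d 0 = 1 := rfl

theorem turns_succ (x : D → ℝ) (d : D) (j : ℕ) : Portal.turns (T := T) x d (j + 1) =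
    step false (x (T.sg (T.sg d))) * Portal.turns (T := T) x (T.rho d) j := rfl

theorem turns_last (x : D → ℝ) (j : ℕ) : ∀ d : D, Portal.turns (T := T) x d (j + 1) =
    Portal.turns (T := T) x d j * step false (x (T.sg (T.sg (T.rho^[j] d)))) := by
  induction j with
  | zero => intro d; rw [turns_succ, turns_zero, turns_zero, mul_one, one_mul]; rfl
  | succ j ih =>
    intro d
    rw [turns_succ, ih, ← mul_assoc, ← turns_succ]
    rfl

theorem stepF_c (s : ℝ) : (step false s).1 = !![exp (-s / 2), 0; exp (-s / 2), exp (s / 2)] := by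
  rw [step, Matrix.SpecialLinearGroup.coe_mul, Uf_c, Del_c, Matrix.mul_fin_two]
  simp

theorem turns_tri {x : D → ℝ} (hx : ∀ d, x (T.io d) = x d) (j : ℕ) : ∀ d : D,
    (Portal.turns (T := T) x d j).1 0 1 = 0 ∧
    (Portal.turns (T := T) x d j).1 0 0 = exp (-(∑ i ∈ Finset.range j, x (T.rho^[i + 1] d)) / 2) ∧
    (Portal.turns (T := T) x d j).1 1 1 = exp ((∑ i ∈ Finset.range j, x (T.rho^[i + 1] d)) / 2) := by
  induction j with
  | zero => intro d; rw [turns_zero]; simp
  | succ j ih =>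
    intro d
    obtain ⟨h1, h2, h3⟩ := ih (T.rho d)
    have e : ∑ i ∈ Finset.range (j + 1), x (T.rho^[i + 1] d) =
        x (T.sg (T.sg d)) + ∑ i ∈ Finset.range j, x (T.rho^[i + 1] (T.rho d)) := by
      rw [Finset.sum_range_succ', add_comm]
      congr 1
      show x (T.rho d) = _
      rw [Tri.rho, hx]
    rw [turns_succ, ent, ent, ent, h1, h2, h3, stepF_c, e]
    refine ⟨by simp, ?_, ?_⟩
    · simp only [Matrix.of_apply, Matrix.cons_val', Matrix.cons_val_zero, Matrix.cons_val_one,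
        zero_mul, add_zero, Matrix.cons_val_fin_one]
      rw [← Real.exp_add]
      congr 1
      ring
    · simp only [Matrix.of_apply, Matrix.cons_val', Matrix.cons_val_zero, Matrix.cons_val_one,
        mul_zero, zero_add, Matrix.cons_val_fin_one]
      rw [← Real.exp_add]
      congr 1
      ring

theorem cyc_eq (x : D → ℝ) (d : D) :
    ∑ i ∈ Finset.range (Function.minimalPeriod T.rho d), x (T.rho^[i + 1] d) = T.cyc x d := by
  have h1 := Finset.sum_range_succ' (fun i => x (T.rho^[i] d)) (Function.minimalPeriod T.rho d)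
  have h2 := Finset.sum_range_succ (fun i => x (T.rho^[i] d)) (Function.minimalPeriod T.rho d)
  rw [h2] at h1
  simp only [Function.iterate_minimalPeriod, Function.iterate_zero, id] at h1
  rw [Tri.cyc]
  linarith

theorem rot_tri {x : D → ℝ} (hx : ∀ d, x (T.io d) = x d) (d : D) :
    (Portal.rot (T := T) x d).1 0 1 = 0 ∧
    (Portal.rot (T := T) x d).1 0 0 = exp (-(T.cyc x d) / 2) ∧
    (Portal.rot (T := T) x d).1 1 1 = exp (T.cyc x d / 2) := by
  have h := turns_tri T hx (Function.minimalPeriod T.rho d) d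
  rw [cyc_eq] at h
  exact h

/-! ### Orbits -/

theorem rho_inj : Function.Injective T.rho := by
  intro a b h
  exact T.sg.injective (T.sg.injective (T.io.injective h))

theorem per_pos (d : D) : 0 < Function.minimalPeriod T.rho d :=
  Function.minimalPeriod_pos_of_mem_periodicPts ((rho_inj T).mem_periodicPts d)

theorem orbit_symm {a b : D} {j : ℕ} (h : T.rho^[j] a = b) : ∃ m, T.rho^[m] b = a := by
  have hn := per_pos T a
  have hp : Function.IsPeriodicPt T.rho (Function.minimalPeriod T.rho a * (j + 1)) a :=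
    (Function.isPeriodicPt_minimalPeriod T.rho a).mul_const (j + 1)
  have hle : j ≤ Function.minimalPeriod T.rho a * (j + 1) := by nlinarith
  refine ⟨Function.minimalPeriod T.rho a * (j + 1) - j, ?_⟩
  rw [← h, ← Function.iterate_add_apply, Nat.sub_add_cancel hle]
  exact hp

/-! ### Twisted turns -/

section

variable {T} {P : Portal T} (t : PTD P) (p : (D → ℝ) × ℝ)

/-- the twisted turn -/
def Y (d : D) : SL := t.Rs p d * t.Rs p (T.sg d) * t.Ri p (T.sg (T.sg d))

/-- products of twisted turns -/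
def YP : ℕ → D → SL
  | 0, _ => 1
  | j + 1, d => Y t p d * YP j (T.rho d)

theorem YP_last (j : ℕ) : ∀ d : D, YP t p (j + 1) d = YP t p j d * Y t p (T.rho^[j] d) := by
  induction j with
  | zero => intro d; simp [YP]
  | succ j ih =>
    intro d
    rw [YP, ih, ← mul_assoc]
    rfl

theorem Y_gauge {x' : D → ℝ} {g : D → SL} (hg : ∀ d,
    t.Rs p d * g (T.sg d) = g d * W ∧ t.Ri p d * g (T.io d) = g d * E (x' d)) (d : D) :
    Y t p d * g (T.rho d) = g d * step false (x' (T.sg (T.sg d))) := by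
  have h1 := (hg (T.sg (T.sg d))).2
  have h2 := (hg (T.sg d)).1
  have h3 := (hg d).1
  rw [Y, Tri.rho, mul_assoc, h1, stepF]
  calc t.Rs p d * t.Rs p (T.sg d) * (g (T.sg (T.sg d)) * E (x' (T.sg (T.sg d))))
      = t.Rs p d * (t.Rs p (T.sg d) * g (T.sg (T.sg d))) * E (x' (T.sg (T.sg d))) := by
        simp only [mul_assoc]
    _ = (t.Rs p d * g (T.sg d)) * W * E (x' (T.sg (T.sg d))) := by
        rw [h2]
        simp only [mul_assoc]
    _ = _ := by
        rw [h3]
        simp only [mul_assoc]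

theorem YP_gauge {x' : D → ℝ} {g : D → SL} (hg : ∀ d,
    t.Rs p d * g (T.sg d) = g d * W ∧ t.Ri p d * g (T.io d) = g d * E (x' d)) (j : ℕ) :
    ∀ d : D, YP t p j d * g (T.rho^[j] d) = g d * Portal.turns (T := T) x' d j := by
  induction j with
  | zero => intro d; rw [YP, turns_zero]; simp
  | succ j ih =>
    intro d
    rw [YP, turns_succ, Function.iterate_succ_apply, mul_assoc, ih, ← mul_assoc,
      Y_gauge t p hg, mul_assoc]

theorem YP_turns (hR : C_R) (hp : ∀ d, p.1 (T.io d) = p.1 d) (j : ℕ) : ∀ d : D,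
    (∀ i < j, T.rho^[i + 1] d ≠ P.u) → (∀ i < j, T.rho^[i + 1] d ≠ P.v) →
    YP t p j d = Portal.turns (T := T) p.1 d j := by
  obtain ⟨-, -, r3, -, -⟩ := hR T P t p hp
  induction j with
  | zero => intro d _ _; rfl
  | succ j ih =>
    intro d hu hv
    rw [YP, turns_succ, ih (T.rho d)]
    · congr 1
      refine r3 d (fun h => hu 0 (by omega) ?_) (fun h => hv 0 (by omega) ?_)
      · show T.rho d = P.u
        rw [Tri.rho, h, T.io_io]
      · show T.rho d = P.v
        rw [Tri.rho, h, T.io_io]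
    · intro i hi
      exact hu (i + 1) (by omega)
    · intro i hi
      exact hv (i + 1) (by omega)

theorem not_u (i : ℕ) : T.rho^[i] P.v ≠ P.u := by
  intro h
  obtain ⟨m, hm⟩ := orbit_symm T h
  exact P.huv m hm

theorem not_self {d : D} {i : ℕ} (h : i + 1 < Function.minimalPeriod T.rho d) :
    T.rho^[i + 1] d ≠ d :=
  Function.not_isPeriodicPt_of_pos_of_lt_minimalPeriod (by omega) h

theorem YP_u (hR : C_R) (hp : ∀ d, p.1 (T.io d) = p.1 d) :
    YP t p (Function.minimalPeriod T.rho P.u) P.u = t.Mp p := by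
  obtain ⟨-, -, -, r4, -⟩ := hR T P t p hp
  obtain ⟨k, hk⟩ : ∃ k, Function.minimalPeriod T.rho P.u = k + 1 :=
    ⟨_, (Nat.sub_add_cancel (per_pos T P.u)).symm⟩
  have hk' : T.rho^[k + 1] P.u = P.u := by
    rw [← hk]
    exact Function.iterate_minimalPeriod
  have e : T.sg (T.sg (T.rho^[k] P.u)) = T.io P.u := by
    rw [Function.iterate_succ_apply', Tri.rho] at hk'
    have h := congrArg T.io hk'
    rw [T.io_io] at h
    exact h
  rw [hk, YP_last, YP_turns t p hR hp k P.u (fun i hi => not_self (by omega))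
    (fun i hi => P.huv (i + 1)), Y, r4 _ e, ← mul_assoc, ← turns_last, ← hk]
  rfl

theorem YP_v (hR : C_R) (hp : ∀ d, p.1 (T.io d) = p.1 d) :
    YP t p (Function.minimalPeriod T.rho P.v) P.v =
      Portal.rot (T := T) p.1 P.v * (t.B p)⁻¹ := by
  obtain ⟨-, -, -, -, r5⟩ := hR T P t p hp
  obtain ⟨k, hk⟩ : ∃ k, Function.minimalPeriod T.rho P.v = k + 1 :=
    ⟨_, (Nat.sub_add_cancel (per_pos T P.v)).symm⟩
  have hk' : T.rho^[k + 1] P.v = P.v := by
    rw [← hk]
    exact Function.iterate_minimalPeriod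
  have e : T.sg (T.sg (T.rho^[k] P.v)) = T.io P.v := by
    rw [Function.iterate_succ_apply', Tri.rho] at hk'
    have h := congrArg T.io hk'
    rw [T.io_io] at h
    exact h
  rw [hk, YP_last, YP_turns t p hR hp k P.v (fun i hi => not_u (i + 1))
    (fun i hi => not_self (by omega)), Y, r5 _ e, ← mul_assoc, ← turns_last, ← hk]
  rfl

theorem YP_other (hR : C_R) (hp : ∀ d, p.1 (T.io d) = p.1 d) {d : D}
    (h1 : ∀ j, T.rho^[j] d ≠ P.u) (h2 : ∀ j, T.rho^[j] d ≠ P.v) :
    YP t p (Function.minimalPeriod T.rho d) d = Portal.rot (T := T) p.1 d :=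
  YP_turns t p hR hp _ d (fun i _ => h1 (i + 1)) (fun i _ => h2 (i + 1))

end

/-- the eigenvalue of a lower triangular matrix -/
theorem eig {R G M : SL} {ξ r s : ℝ} (h : R * G = G * M) (h0 : M.1 0 1 = 0)
    (h1 : M.1 1 1 = s) (hG : G.1 0 1 = -ξ * G.1 1 1) (hp : 0 < G.1 1 1) (ha : Act R ξ ξ r) :
    s = r := by
  have e : (R * G).1 1 1 = (G * M).1 1 1 := by rw [h]
  rw [ent, ent, h0, h1, hG] at e
  have h2 := ha.2
  have : G.1 1 1 * s = G.1 1 1 * r := by
    linear_combination -e + G.1 1 1 * h2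
  exact mul_left_cancel₀ hp.ne' this

theorem E_inj {s s' : ℝ} (h : E s * E s' = -1) : s' = s := by
  have e : (E s * E s').1 0 0 = (-1 : SL).1 0 0 := by rw [h]
  rw [ent, Matrix.SpecialLinearGroup.coe_neg, E_c, E_c] at e
  simp only [Matrix.of_apply, Matrix.cons_val', Matrix.cons_val_zero, Matrix.cons_val_one,
    Matrix.cons_val_fin_one, zero_mul, zero_add, mul_neg, Matrix.neg_apply,
    Matrix.SpecialLinearGroup.coe_one, Matrix.one_apply_eq, neg_inj] at e
  rw [← Real.exp_add] at e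
  have := (Real.exp_eq_one_iff _).1 e
  linarith

theorem t_CtwT (hG : C_gauge) (hR : C_R) (hE : C_eig) (hJ : C_J) : C_twT := by
  intro D _ _ T P t p hp
  have hio := hp.1
  obtain ⟨-, e2, -, -, -, -, -, -, e9, e10, e11, -, -, e14, -, -, -⟩ := hE T P t p hp
  obtain ⟨-, -, hrel, -, -⟩ := hJ T P p hp
  obtain ⟨-, r2, -, -, -⟩ := hR T P t p hio
  obtain ⟨g, hg, -, -⟩ := hG T P t p hp
  have hx' : ∀ d, (t.tw p).1 (T.io d) = (t.tw p).1 d := by
    intro d
    have h1 := (hg d).2.1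
    have h2 := (hg (T.io d)).2.1
    rw [T.io_io] at h2
    have h : g d * (E ((t.tw p).1 d) * E ((t.tw p).1 (T.io d))) = g d * (-1) := by
      rw [← mul_assoc, ← h1, mul_assoc, ← h2, ← mul_assoc, r2]
      simp
    exact E_inj (mul_left_cancel h)
  have kap0 : 0 < t.kap p := by linarith
  have hrotv : Portal.rot (T := T) p.1 P.v * (t.B p)⁻¹ = (t.RJ p)⁻¹ * (t.Mp p)⁻¹ * t.RJ p := by
    have hu : Portal.rot (T := T) p.1 P.u =
        P.J p * (Portal.rot (T := T) p.1 P.v)⁻¹ * (P.J p)⁻¹ := by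
      rw [← hrel]
      group
    rw [PTD.RJ, PTD.Mp, hu]
    group
  have av : Act (Portal.rot (T := T) p.1 P.v * (t.B p)⁻¹) (t.xi p P.v) (t.xi p P.v)
      ((t.om p)⁻¹ * (t.kap p)⁻¹⁻¹ * t.om p) := by
    rw [hrotv]
    exact act_mul (act_mul (act_inv e9.ne' e11) (act_inv (inv_ne_zero kap0.ne') e10)) e11
  have key : ∀ g : D → SL, (∀ d,
      t.Rs p d * g (T.sg d) = g d * W ∧ t.Ri p d * g (T.io d) = g d * E ((t.tw p).1 d)) →
      ∀ d, YP t p (Function.minimalPeriod T.rho d) d * g d =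
        g d * Portal.rot (T := T) (t.tw p).1 d := by
    intro g hg d
    have h := YP_gauge t p hg (Function.minimalPeriod T.rho d) d
    rw [Function.iterate_minimalPeriod] at h
    exact h
  have kg := key g (fun d => ⟨(hg d).1, (hg d).2.1⟩)
  have cv : T.cyc (t.tw p).1 P.v = 2 * log (t.kap p) := by
    have h := kg P.v
    rw [YP_v t p hR hio] at h
    obtain ⟨a1, -, a3⟩ := rot_tri T hx' P.v
    have h' := eig h a1 a3 (hg P.v).2.2.1 (hg P.v).2.2.2 av
    have h2 : (t.om p)⁻¹ * (t.kap p)⁻¹⁻¹ * t.om p = t.kap p := by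
      rw [inv_inv]
      field_simp
    rw [h2] at h'
    rw [← h', Real.log_exp]
    ring
  have cu : T.cyc (t.tw p).1 P.u = - T.cyc (t.tw p).1 P.v := by
    have h := kg P.u
    rw [YP_u t p hR hio] at h
    obtain ⟨a1, -, a3⟩ := rot_tri T hx' P.u
    have h' := eig h a1 a3 (hg P.u).2.2.1 (hg P.u).2.2.2 e10
    have h2 := congrArg Real.log h'
    rw [Real.log_exp, Real.log_inv] at h2
    rw [cv]
    linarith
  have co : ∀ d, (∀ j, T.rho^[j] d ≠ P.u) → (∀ j, T.rho^[j] d ≠ P.v) →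
      T.cyc (t.tw p).1 d = 0 := by
    intro d d1 d2
    have h := kg d
    rw [YP_other t p hR hio d1 d2] at h
    obtain ⟨a1, -, a3⟩ := rot_tri T hx' d
    obtain ⟨b1, -, b3⟩ := rot_tri T hio d
    have ha : Act (Portal.rot (T := T) p.1 d) (t.xi p d) (t.xi p d) 1 := by
      rw [e14 d d1 d2]
      constructor
      · rw [b1]
        simp
      · rw [b3, hp.2.2.2 d d1 d2]
        simp
    have h' := eig h a1 a3 (hg d).2.2.1 (hg d).2.2.2 ha
    have h2 := (Real.exp_eq_one_iff _).1 h'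
    linarith
  have lpos : 0 < T.cyc (t.tw p).1 P.v := by
    rw [cv]
    have := Real.log_pos e2
    linarith
  refine ⟨⟨hx', lpos, cu, co⟩, cv, ?_⟩
  intro g hg q1 q2
  have kg := key g (fun d => ⟨(hg d).1, (hg d).2.1⟩)
  have ku := kg P.u
  rw [YP_u t p hR hio] at ku
  have kv := kg P.v
  rw [YP_v t p hR hio, hrotv] at kv
  obtain ⟨u1, u2, u3⟩ := rot_tri T hx' P.u
  obtain ⟨v1, v2, v3⟩ := rot_tri T hx' P.v
  have ku' : Portal.rot (T := T) (t.tw p).1 P.u = (g P.u)⁻¹ * (t.Mp p * g P.u) := by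
    rw [ku]
    group
  have kv' : Portal.rot (T := T) (t.tw p).1 P.v =
      (g P.v)⁻¹ * ((t.RJ p)⁻¹ * (t.Mp p)⁻¹ * t.RJ p * g P.v) := by
    rw [kv]
    group
  have rel : Portal.rot (T := T) (t.tw p).1 P.u * ((g P.u)⁻¹ * t.RJ p * g P.v) =
      ((g P.u)⁻¹ * t.RJ p * g P.v) * (Portal.rot (T := T) (t.tw p).1 P.v)⁻¹ := by
    rw [ku', kv']
    group
  have hL : (g P.u)⁻¹ * t.RJ p * g P.v = P.J (t.tw p) := by
    generalize (g P.u)⁻¹ * t.RJ p * g P.v = L at q1 q2 rel ⊢
    have hd := det1 L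
    have re : (Portal.rot (T := T) (t.tw p).1 P.u * L).1 1 0 =
      (L * (Portal.rot (T := T) (t.tw p).1 P.v)⁻¹).1 1 0 := by
      rw [rel]
    rw [ent, ent, inv00, inv10, u3, v3, cu, q2] at re
    rw [q1, q2] at hd
    have l00 : L.1 0 0 = exp ((t.tw p).2 / 2) := by
      have h1 : exp ((t.tw p).2 / 2) * exp (-(t.tw p).2 / 2) = 1 := exx _
      have h2 : L.1 0 0 * exp (-(t.tw p).2 / 2) = exp ((t.tw p).2 / 2) * exp (-(t.tw p).2 / 2) := by
        rw [h1]
        linarith
      exact mul_right_cancel₀ (Real.exp_pos _).ne' h2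
    have sp : 0 < sinh (T.cyc (t.tw p).1 P.v / 2) := Real.sinh_pos_iff.2 (by linarith)
    have l10 : L.1 1 0 = ((Portal.rot (T := T) (t.tw p).1 P.u).1 1 0 * exp ((t.tw p).2 / 2) +
        (Portal.rot (T := T) (t.tw p).1 P.v).1 1 0 * exp (-(t.tw p).2 / 2)) /
          (2 * sinh (T.cyc (t.tw p).1 P.v / 2)) := by
      rw [eq_div_iff (by positivity), Real.sinh_eq, ← l00]
      have h3 : -(T.cyc (t.tw p).1 P.v / 2) = -(T.cyc (t.tw p).1 P.v) / 2 := by ring
      rw [h3]
      linear_combination -re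
    apply Subtype.ext
    ext i j
    fin_cases i <;> fin_cases j
    · exact l00
    · exact q1
    · exact l10
    · exact q2
  rw [← hL]
  group

end Run7.h595.DG
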