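import Pool.Agent.Run7.h568.DG.Iface

/-! The piece S_word for MP_00a7c6_gt: the word inequality. -/

set_option autoImplicit false

open Real Matrix

noncomputable section

namespace Run7.h595.DG

open Run7.h568.DG

/-! ### Matrices -/

/-- nonnegative entries, and the entries of the second matrix are at most the powers -/
def PP (k : ℝ) (M M' : SL) : Prop := ∀ i j, 0 ≤ M.1 i j ∧ 0 ≤ M'.1 i j ∧ M'.1 i j ≤ (M.1 i j) ^ k

theorem PP.mul {k : ℝ} (hk : 1 ≤ k) {M M' N N' : SL} (h : PP k M M') (h' : PP k N N') :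
    PP k (M * N) (M' * N') := by
  intro i j
  obtain ⟨a1, a2, a3⟩ := h i 0
  obtain ⟨b1, b2, b3⟩ := h i 1
  obtain ⟨c1, c2, c3⟩ := h' 0 j
  obtain ⟨d1, d2, d3⟩ := h' 1 j
  have e : ∀ A B : SL, (A * B).1 i j = A.1 i 0 * B.1 0 j + A.1 i 1 * B.1 1 j := by
    intro A B
    rw [Matrix.SpecialLinearGroup.coe_mul, Matrix.mul_apply, Fin.sum_univ_two]
  rw [e, e]
  refine ⟨by positivity, by positivity, ?_⟩
  calc M'.1 i 0 * N'.1 0 j + M'.1 i 1 * N'.1 1 j
      ≤ M.1 i 0 ^ k * N.1 0 j ^ k + M.1 i 1 ^ k * N.1 1 j ^ k := by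
        refine add_le_add (mul_le_mul a3 c3 c2 (by positivity)) (mul_le_mul b3 d3 d2 (by positivity))
    _ = (M.1 i 0 * N.1 0 j) ^ k + (M.1 i 1 * N.1 1 j) ^ k := by
        rw [Real.mul_rpow a1 c1, Real.mul_rpow b1 d1]
    _ ≤ _ := Real.add_rpow_le_rpow_add (by positivity) (by positivity) hk

theorem Del_coe (s : ℝ) : (Del s).1 = !![exp (-s / 2), 0; 0, exp (s / 2)] := rfl

theorem Del_add (s t : ℝ) : Del (s + t) = Del s * Del t := by
  apply Subtype.ext
  rw [Matrix.SpecialLinearGroup.coe_mul, Del_coe, Del_coe, Del_coe, Matrix.mul_fin_two]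
  have h1 : exp (-(s + t) / 2) = exp (-s / 2) * exp (-t / 2) := by
    rw [← exp_add]
    congr 1
    ring
  have h2 : exp ((s + t) / 2) = exp (s / 2) * exp (t / 2) := by
    rw [← exp_add]
    congr 1
    ring
  rw [h1, h2]
  simp

theorem Del_zero : Del 0 = 1 := by
  apply Subtype.ext
  rw [Del_coe, Matrix.SpecialLinearGroup.coe_one]
  ext i j
  fin_cases i <;> fin_cases j <;> simp

theorem Del_inv (s : ℝ) : (Del s)⁻¹ = Del (-s) := by
  rw [inv_eq_iff_mul_eq_one, ← Del_add, add_neg_cancel, Del_zero]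

theorem PP_one {k : ℝ} (hk : 1 ≤ k) : PP k 1 1 := by
  intro i j
  rw [Matrix.SpecialLinearGroup.coe_one]
  by_cases h : i = j
  · rw [h, Matrix.one_apply_eq, one_rpow]
    norm_num
  · rw [Matrix.one_apply_ne h, zero_rpow (by linarith)]
    norm_num

theorem PP_U {k : ℝ} (hk : 1 ≤ k) (b : Bool) : PP k (U b) (U b) := by
  have h0 : (0 : ℝ) ^ k = 0 := zero_rpow (by linarith)
  intro i j
  cases b <;> fin_cases i <;> fin_cases j <;> simp [U, h0]

theorem PP_of {k : ℝ} {M M' : SL} {a b c d a' b' c' d' : ℝ} (hM : M.1 = !![a, b; c, d])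
    (hM' : M'.1 = !![a', b'; c', d']) (ha : 0 ≤ a ∧ 0 ≤ a' ∧ a' ≤ a ^ k)
    (hb : 0 ≤ b ∧ 0 ≤ b' ∧ b' ≤ b ^ k) (hc : 0 ≤ c ∧ 0 ≤ c' ∧ c' ≤ c ^ k)
    (hd : 0 ≤ d ∧ 0 ≤ d' ∧ d' ≤ d ^ k) : PP k M M' := by
  intro i j
  rw [hM, hM']
  fin_cases i <;> fin_cases j <;> simpa

theorem PP_Del {k : ℝ} (hk : 1 ≤ k) (s : ℝ) : PP k (Del s) (Del (k * s)) := by
  have h0 : (0 : ℝ) ^ k = 0 := zero_rpow (by linarith)
  have h1 : exp (-(k * s) / 2) = exp (-s / 2) ^ k := by
    rw [← exp_mul]
    congr 1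
    ring
  have h2 : exp (k * s / 2) = exp (s / 2) ^ k := by
    rw [← exp_mul]
    congr 1
    ring
  exact PP_of (Del_coe _) (Del_coe _) ⟨(exp_pos _).le, (exp_pos _).le, h1.le⟩
    ⟨le_rfl, le_rfl, h0.ge⟩ ⟨le_rfl, le_rfl, h0.ge⟩ ⟨(exp_pos _).le, (exp_pos _).le, h2.le⟩

/-! ### The families in the annulus -/

def GG (l th : ℝ) : SL := Del (-(ae l th + af l th) / 2)

def LA (l th : ℝ) (m : ℕ) : SL :=
  GG l th * step false (ae l th) * (step false (af l th) * step true (ae l th)) ^ m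

def LB (l th : ℝ) (m : ℕ) : SL := LA l th m * step false (af l th)

def LC (l th : ℝ) (m : ℕ) : SL :=
  GG l th * step true (af l th) * (step true (ae l th) * step false (af l th)) ^ m

def LD (l th : ℝ) (m : ℕ) : SL := LC l th m * step true (ae l th)

theorem LA_succ (l th : ℝ) (m : ℕ) : LA l th (m + 1) = LB l th m * step true (ae l th) := by
  unfold LB LA
  rw [pow_succ]
  simp only [mul_assoc]

theorem LC_succ (l th : ℝ) (m : ℕ) : LC l th (m + 1) = LD l th m * step false (af l th) := by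
  unfold LD LC
  rw [pow_succ]
  simp only [mul_assoc]

section fam

variable (hI : S_ineq) (hE : S_exc) {k l : ℝ} (hk : 1 ≤ k) (hl : 0 < l) (th : ℝ)

include hI hk hl in
theorem cpow (j : ℝ) : 0 ≤ cosh ((th + j * l) / 2) / sinh (l / 2) ∧
    0 ≤ cosh ((k * th + j * (k * l)) / 2) / sinh (k * l / 2) ∧
    cosh ((k * th + j * (k * l)) / 2) / sinh (k * l / 2) ≤
      (cosh ((th + j * l) / 2) / sinh (l / 2)) ^ k := by
  have h1 := (hI k hk l hl).1 ((th + j * l) / 2)
  have e : k * ((th + j * l) / 2) = (k * th + j * (k * l)) / 2 := by ring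
  rw [e] at h1
  have h2 : 0 < sinh (l / 2) := sinh_pos_iff.2 (by linarith)
  have h3 : 0 < sinh (k * l / 2) := sinh_pos_iff.2 (by positivity)
  exact ⟨div_nonneg (cosh_pos _).le h2.le, div_nonneg (cosh_pos _).le h3.le, h1⟩

include hI hk hl in
theorem spow (n : ℕ) : 0 ≤ sinh (n * l / 2) / sinh (l / 2) ∧
    0 ≤ sinh (n * (k * l) / 2) / sinh (k * l / 2) ∧
    sinh (n * (k * l) / 2) / sinh (k * l / 2) ≤ (sinh (n * l / 2) / sinh (l / 2)) ^ k := by
  have h1 := (hI k hk l hl).2 n
  have h2 : 0 < sinh (l / 2) := sinh_pos_iff.2 (by linarith)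
  have h3 : 0 < sinh (k * l / 2) := sinh_pos_iff.2 (by positivity)
  have hk0 : 0 < k := by linarith
  exact ⟨div_nonneg (sinh_nonneg_iff.2 (by positivity)) h2.le,
    div_nonneg (sinh_nonneg_iff.2 (by positivity)) h3.le, h1⟩

include hI hE hk hl in
theorem fam (m : ℕ) :
    PP k (LA l th m * U true * GG l th) (LA (k * l) (k * th) m * U true * GG (k * l) (k * th)) ∧
    PP k (LB l th m * U false * GG l th) (LB (k * l) (k * th) m * U false * GG (k * l) (k * th)) ∧
    PP k (LC l th m * U false * GG l th) (LC (k * l) (k * th) m * U false * GG (k * l) (k * th)) ∧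
    PP k (LD l th m * U true * GG l th) (LD (k * l) (k * th) m * U true * GG (k * l) (k * th)) := by
  have hkl : 0 < k * l := by positivity
  obtain ⟨h1, h2, h3, h4⟩ := hE l hl th m
  obtain ⟨g1, g2, g3, g4⟩ := hE (k * l) hkl (k * th) m
  have s0 := spow hI hk hl m
  have s1 := spow hI hk hl (m + 1)
  have s2 := spow hI hk hl (m + 2)
  push_cast at s0 s1 s2
  exact ⟨PP_of h1 g1 (cpow hI hk hl th _) (cpow hI hk hl th _) (cpow hI hk hl th _)
      (cpow hI hk hl th _),
    PP_of h2 g2 s1 s0 s2 s1,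
    PP_of h3 g3 (cpow hI hk hl th _) (cpow hI hk hl th _) (cpow hI hk hl th _)
      (cpow hI hk hl th _),
    PP_of h4 g4 s1 s2 s0 s1⟩

end fam

/-! ### Crossing an outer edge -/

section cross

variable {D : Type} [Fintype D] [DecidableEq D] {T : Tri D} (A : Annulus T)

/-- side of the boundary of the annulus -/
def al (d : D) : ℝ := if d = A.b1 ∨ d = A.b2 then 1 else 0

theorem gam_eq (q : ℝ) (d : D) : A.gam q d = Del (-(al A d * q / 2)) := by
  unfold Annulus.gam al
  split_ifs with h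
  · congr 1
    ring
  · rw [zero_mul, zero_div, neg_zero, Del_zero]

theorem al_eq (hb : A.b1 ≠ A.b2) (d : D) :
    ((if d = A.b1 then 1 else 0) + (if d = A.b2 then 1 else 0) : ℝ) = al A d := by
  unfold al
  by_cases h1 : d = A.b1
  · rw [if_pos h1, if_neg (by rw [h1]; exact hb), if_pos (Or.inl h1), add_zero]
  · by_cases h2 : d = A.b2
    · rw [if_neg h1, if_pos h2, if_pos (Or.inr h2), zero_add]
    · rw [if_neg h1, if_neg h2, if_neg (not_or.2 ⟨h1, h2⟩), add_zero]

theorem mu_eq (hb : A.b1 ≠ A.b2) (d : D) : A.mu d = al A d + al A (T.io d) := by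
  unfold Annulus.mu
  rw [← al_eq A hb, ← al_eq A hb]
  ring

/-- the scaling part of the shear of an outer edge -/
def XX (y : D → ℝ) (d : D) : ℝ := y d + A.mu d * (y A.e1 + y A.f1) / 2

theorem XX_smul (k : ℝ) (y : D → ℝ) (d : D) : XX A (k • y) d = k * XX A y d := by
  unfold XX
  simp only [Pi.smul_apply, smul_eq_mul]
  ring

theorem crossing (hK : S_K) (l th : ℝ) (y : D → ℝ) {t : D} (ht : A.Outer t) :
    Del (A.K l th y t) * (A.gam (ae l th + af l th) (T.io t))⁻¹ =
      A.gam (ae l th + af l th) t * Del (XX A y t) := by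
  obtain ⟨-, -, -, -, -, -, -, -, -, -, -, -, h13, -, -, hb, -⟩ := hK T A
  rw [h13 l th y t ht, gam_eq, gam_eq, Del_inv, ← Del_add, ← Del_add]
  congr 1
  unfold XX
  rw [mu_eq A hb]
  ring

/-- the holonomy without the first gauge -/
def tail (l th : ℝ) (y : D → ℝ) (w : List Bool) (δ : D) : SL :=
  T.hol (A.K l th y) w δ * (A.gam (ae l th + af l th) (T.endp w δ))⁻¹

theorem tail_cons (l th : ℝ) (y : D → ℝ) (β : Bool) (w : List Bool) (δ : D) :
    tail A l th y (β :: w) δ =
      step β (A.K l th y (T.turn β δ)) * tail A l th y w (T.nxt β δ) := by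
  unfold tail
  simp only [Tri.hol, Tri.endp, mul_assoc]

theorem hat_eq (l th : ℝ) (y : D → ℝ) (w : List Bool) (d : D) :
    A.hat l th y w d = A.gam (ae l th + af l th) d * tail A l th y w d := by
  unfold Annulus.hat tail
  rw [mul_assoc]

theorem tail_in {l th : ℝ} {y : D → ℝ} {β : Bool} {w : List Bool} {δ δ' t : D} {s : ℝ}
    (ht : T.turn β δ = t) (hs : A.K l th y t = s) (hd : T.io t = δ') :
    tail A l th y (β :: w) δ = step β s * tail A l th y w δ' := by
  rw [tail_cons]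
  unfold Tri.nxt
  rw [ht, hs, hd]

theorem tail_out (hK : S_K) (l th : ℝ) (y : D → ℝ) {β : Bool} {w : List Bool} {δ t : D}
    (ht : T.turn β δ = t) (hO : A.Outer t) :
    tail A l th y (β :: w) δ =
      U β * (A.gam (ae l th + af l th) t * Del (XX A y t)) * A.hat l th y w (T.io t) := by
  rw [tail_cons]
  unfold Tri.nxt
  rw [ht, ← crossing A hK l th y hO, hat_eq]
  unfold step
  group

theorem gam_out (q : ℝ) {d : D} (h1 : d ≠ A.b1) (h2 : d ≠ A.b2) : A.gam q d = 1 := by
  unfold Annulus.gam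
  rw [if_neg (not_or.2 ⟨h1, h2⟩)]

theorem gam_b1 (l th : ℝ) : A.gam (ae l th + af l th) A.b1 = GG l th := by
  unfold Annulus.gam
  rw [if_pos (Or.inl rfl)]
  rfl

theorem gam_b2 (l th : ℝ) : A.gam (ae l th + af l th) A.b2 = GG l th := by
  unfold Annulus.gam
  rw [if_pos (Or.inr rfl)]
  rfl

theorem outer_turn {d : D} (h : A.Outer d) (h1 : d ≠ A.b1) (h2 : d ≠ A.b2) (β : Bool) :
    A.Outer (T.turn β d) ∧ T.turn β d ≠ A.b1 ∧ T.turn β d ≠ A.b2 := by
  obtain ⟨o1, o2, o3, o4⟩ := h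
  have h3 := T.sg3 d
  have s1 := A.sf1
  have s2 := A.se1
  have s3 := A.sb1
  have s4 := A.sf2
  have s5 := A.se2
  have s6 := A.sb2
  cases β
  · have e : T.turn false d = T.sg (T.sg d) := rfl
    rw [e]
    refine ⟨⟨?_, ?_, ?_, ?_⟩, ?_, ?_⟩ <;> intro hx <;> rw [hx] at h3
    · exact h1 (by rw [← h3, s2])
    · exact h2 (by rw [← h3, s5])
    · exact o1 (by rw [← h3, s1])
    · exact o2 (by rw [← h3, s4])
    · exact o3 (by rw [← h3, s3])
    · exact o4 (by rw [← h3, s6])
  · have e : T.turn true d = T.sg d := rfl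
    rw [e]
    refine ⟨⟨?_, ?_, ?_, ?_⟩, ?_, ?_⟩ <;> intro hx <;> rw [hx] at h3
    · exact o3 (by rw [← h3, s2, s3])
    · exact o4 (by rw [← h3, s5, s6])
    · exact h1 (by rw [← h3, s1, s2])
    · exact h2 (by rw [← h3, s4, s5])
    · exact o1 (by rw [← h3, s3, s1])
    · exact o2 (by rw [← h3, s6, s4])

/-- the statement at an inner dart -/
def J (k l th : ℝ) (y : D → ℝ) (L : ℝ → ℝ → ℕ → SL) (w : List Bool) (δ : D) : Prop :=
  ∀ m : ℕ, A.Outer (T.endp w δ) →
    PP k (L l th m * tail A l th y w δ) (L (k * l) (k * th) m * tail A (k * l) (k * th) (k • y) w δ)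

theorem J_in {k l th : ℝ} {y : D → ℝ} {L L' : ℝ → ℝ → ℕ → SL} {β : Bool} {w : List Bool}
    {δ δ' t : D} {s : ℝ → ℝ → ℝ} (n : ℕ → ℕ) (hL : ∀ l th m, L l th m * step β (s l th) = L' l th (n m))
    (ht : T.turn β δ = t) (hs : A.K l th y t = s l th)
    (hs' : A.K (k * l) (k * th) (k • y) t = s (k * l) (k * th)) (hd : T.io t = δ')
    (h : J A k l th y L' w δ') : J A k l th y L (β :: w) δ := by
  intro m hO
  have hO' : A.Outer (T.endp w δ') := by
    have e : T.endp (β :: w) δ = T.endp w (T.nxt β δ) := rfl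
    rw [e] at hO
    unfold Tri.nxt at hO
    rwa [ht, hd] at hO
  rw [tail_in A ht hs hd, tail_in A ht hs' hd, ← mul_assoc, ← mul_assoc, hL, hL]
  exact h (n m) hO'

theorem J_out (hK : S_K) {k l th : ℝ} (hk : 1 ≤ k) {y : D → ℝ} {L : ℝ → ℝ → ℕ → SL} {β : Bool}
    {w : List Bool} {δ t : D} (ht : T.turn β δ = t) (hO : A.Outer t) (hb : t = A.b1 ∨ t = A.b2)
    (hf : ∀ m, PP k (L l th m * U β * GG l th) (L (k * l) (k * th) m * U β * GG (k * l) (k * th)))
    (h : ∀ d, A.Outer d → A.Outer (T.endp w d) →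
      PP k (A.hat l th y w d) (A.hat (k * l) (k * th) (k • y) w d)) :
    J A k l th y L (β :: w) δ := by
  intro m hE
  obtain ⟨-, -, -, -, -, -, -, -, -, -, -, -, -, -, -, -, hio⟩ := hK T A
  have hE' : A.Outer (T.endp w (T.io t)) := by
    have e : T.endp (β :: w) δ = T.endp w (T.nxt β δ) := rfl
    rw [e] at hE
    unfold Tri.nxt at hE
    rwa [ht] at hE
  have hg : ∀ l th : ℝ, A.gam (ae l th + af l th) t = GG l th := by
    intro l th
    rcases hb with h | h
    · rw [h, gam_b1]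
    · rw [h, gam_b2]
  rw [tail_out A hK l th y ht hO, tail_out A hK (k * l) (k * th) (k • y) ht hO, hg, hg, XX_smul]
  have e : ∀ P Q R S X : SL, P * (Q * (R * S) * X) = P * Q * R * S * X := by
    intro P Q R S X
    group
  rw [e, e]
  exact ((hf m).mul hk (PP_Del hk _)).mul hk (h _ (hio t hO) hE')

end cross

theorem main {D : Type} [Fintype D] [DecidableEq D] {T : Tri D} (A : Annulus T)
    (hI : S_ineq) (hE : S_exc) (hK : S_K) {y : D → ℝ} (hy : y ∈ T.Teich) {l : ℝ} (hl : 0 < l)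
    (th : ℝ) {k : ℝ} (hk : 1 ≤ k) (w : List Bool) :
    (∀ d, A.Outer d → A.Outer (T.endp w d) →
      PP k (A.hat l th y w d) (A.hat (k * l) (k * th) (k • y) w d)) ∧
    J A k l th y LA w A.e2 ∧ J A k l th y LB w A.f1 ∧ J A k l th y LC w A.f2 ∧
    J A k l th y LD w A.e1 ∧ J A k l th y LA w A.e1 ∧ J A k l th y LB w A.f2 ∧
    J A k l th y LC w A.f1 ∧ J A k l th y LD w A.e2 := by
  obtain ⟨-, -, -, -, -, -, -, -, -, -, -, hval, -, ob1, ob2, hb, hio⟩ := hK T A
  have hky : k • y ∈ T.Teich := T.Teich.smul_mem k hy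
  obtain ⟨v1, v2, v3, v4⟩ := hval l th y hy
  obtain ⟨v1', v2', v3', v4'⟩ := hval (k * l) (k * th) (k • y) hky
  have iof := A.iof
  have ioe := A.ioe
  have iof' : T.io A.f2 = A.f1 := by rw [← iof, T.io_io]
  have ioe' : T.io A.e2 = A.e1 := by rw [← ioe, T.io_io]
  have hfam := fun m => fam hI hE hk hl th m
  have tt : ∀ d, T.turn true d = T.sg d := fun _ => rfl
  have tf : ∀ d, T.turn false d = T.sg (T.sg d) := fun _ => rfl
  have t1 : T.turn true A.b1 = A.f1 := by rw [tt, A.sb1]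
  have t2 : T.turn false A.b1 = A.e1 := by rw [tf, A.sb1, A.sf1]
  have t3 : T.turn true A.b2 = A.f2 := by rw [tt, A.sb2]
  have t4 : T.turn false A.b2 = A.e2 := by rw [tf, A.sb2, A.sf2]
  have t5 : T.turn true A.f1 = A.e1 := by rw [tt, A.sf1]
  have t6 : T.turn false A.f1 = A.b1 := by rw [tf, A.sf1, A.se1]
  have t7 : T.turn true A.f2 = A.e2 := by rw [tt, A.sf2]
  have t8 : T.turn false A.f2 = A.b2 := by rw [tf, A.sf2, A.se2]
  have t9 : T.turn true A.e1 = A.b1 := by rw [tt, A.se1]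
  have t10 : T.turn false A.e1 = A.f1 := by rw [tf, A.se1, A.sb1]
  have t11 : T.turn true A.e2 = A.b2 := by rw [tt, A.se2]
  have t12 : T.turn false A.e2 = A.f2 := by rw [tf, A.se2, A.sb2]
  induction w with
  | nil =>
    refine ⟨fun d _ _ => ?_, ?_, ?_, ?_, ?_, ?_, ?_, ?_, ?_⟩
    · have e : ∀ l th : ℝ, ∀ y : D → ℝ, A.hat l th y [] d = 1 := by
        intro l th y
        unfold Annulus.hat
        simp only [Tri.hol, Tri.endp, mul_one, mul_inv_cancel]
      rw [e, e]
      exact PP_one hk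
    all_goals
      intro m hO
      exfalso
      obtain ⟨o1, o2, o3, o4⟩ := hO
      first
        | exact o1 rfl
        | exact o2 rfl
        | exact o3 rfl
        | exact o4 rfl
  | cons β w ih =>
    obtain ⟨i0, i1, i2, i3, i4, i5, i6, i7, i8⟩ := ih
    refine ⟨fun d hd hO => ?_, ?_, ?_, ?_, ?_, ?_, ?_, ?_, ?_⟩
    · have e : T.endp (β :: w) d = T.endp w (T.nxt β d) := rfl
      rw [e] at hO
      unfold Tri.nxt at hO
      by_cases h1 : d = A.b1
      · subst h1
        rw [hat_eq, hat_eq, gam_b1, gam_b1]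
        cases β
        · rw [t2, ioe] at hO
          rw [tail_in A t2 v1 ioe, tail_in A t2 v1' ioe, ← mul_assoc, ← mul_assoc]
          have h := i1 0 hO
          unfold LA at h
          rwa [pow_zero, pow_zero, mul_one, mul_one] at h
        · rw [t1, iof] at hO
          rw [tail_in A t1 v3 iof, tail_in A t1 v3' iof, ← mul_assoc, ← mul_assoc]
          have h := i3 0 hO
          unfold LC at h
          rwa [pow_zero, pow_zero, mul_one, mul_one] at h
      · by_cases h2 : d = A.b2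
        · subst h2
          rw [hat_eq, hat_eq, gam_b2, gam_b2]
          cases β
          · rw [t4, ioe'] at hO
            rw [tail_in A t4 v2 ioe', tail_in A t4 v2' ioe', ← mul_assoc, ← mul_assoc]
            have h := i5 0 hO
            unfold LA at h
            rwa [pow_zero, pow_zero, mul_one, mul_one] at h
          · rw [t3, iof'] at hO
            rw [tail_in A t3 v4 iof', tail_in A t3 v4' iof', ← mul_assoc, ← mul_assoc]
            have h := i7 0 hO
            unfold LC at h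
            rwa [pow_zero, pow_zero, mul_one, mul_one] at h
        · obtain ⟨ot, n1, n2⟩ := outer_turn A hd h1 h2 β
          rw [hat_eq, hat_eq, gam_out A _ h1 h2, gam_out A _ h1 h2, one_mul, one_mul,
            tail_out A hK l th y rfl ot, tail_out A hK (k * l) (k * th) (k • y) rfl ot,
            gam_out A _ n1 n2, gam_out A _ n1 n2, one_mul, one_mul, XX_smul]
          exact ((PP_U hk β).mul hk (PP_Del hk _)).mul hk (i0 _ (hio _ ot) hO)
    · -- e2, LA
      cases β
      · exact J_in A (s := af) (L' := LB) id (fun _ _ _ => rfl) t12 v4 v4' iof' i2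
      · exact J_out A hK hk t11 ob2 (Or.inr rfl) (fun m => (hfam m).1) i0
    · -- f1, LB
      cases β
      · exact J_out A hK hk t6 ob1 (Or.inl rfl) (fun m => (hfam m).2.1) i0
      · exact J_in A (s := ae) (L' := LA) (fun m => m + 1) (fun l th m => (LA_succ l th m).symm)
          t5 v1 v1' ioe i1
    · -- f2, LC
      cases β
      · exact J_out A hK hk t8 ob2 (Or.inr rfl) (fun m => (hfam m).2.2.1) i0
      · exact J_in A (s := ae) (L' := LD) id (fun _ _ _ => rfl) t7 v2 v2' ioe' i4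
    · -- e1, LD
      cases β
      · exact J_in A (s := af) (L' := LC) (fun m => m + 1) (fun l th m => (LC_succ l th m).symm)
          t10 v3 v3' iof i3
      · exact J_out A hK hk t9 ob1 (Or.inl rfl) (fun m => (hfam m).2.2.2) i0
    · -- e1, LA
      cases β
      · exact J_in A (s := af) (L' := LB) id (fun _ _ _ => rfl) t10 v3 v3' iof i6
      · exact J_out A hK hk t9 ob1 (Or.inl rfl) (fun m => (hfam m).1) i0
    · -- f2, LB
      cases β
      · exact J_out A hK hk t8 ob2 (Or.inr rfl) (fun m => (hfam m).2.1) i0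
      · exact J_in A (s := ae) (L' := LA) (fun m => m + 1) (fun l th m => (LA_succ l th m).symm)
          t7 v2 v2' ioe' i5
    · -- f1, LC
      cases β
      · exact J_out A hK hk t6 ob1 (Or.inl rfl) (fun m => (hfam m).2.2.1) i0
      · exact J_in A (s := ae) (L' := LD) id (fun _ _ _ => rfl) t5 v1 v1' ioe i8
    · -- e2, LD
      cases β
      · exact J_in A (s := af) (L' := LC) (fun m => m + 1) (fun l th m => (LC_succ l th m).symm)
          t12 v4 v4' iof' i7
      · exact J_out A hK hk t11 ob2 (Or.inr rfl) (fun m => (hfam m).2.2.2) i0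

/-- **The word inequality** -/
theorem t_word (hI : S_ineq) (hE : S_exc) (hK : S_K) : S_word := by
  intro D _ _ T A y hy l hl th k hk w d hd hO i j
  exact (main A hI hE hK hy hl th hk w).1 d hd hO i j

end Run7.h595.DG
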